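import Mathlib

/-!
# An identity in idempotent commutative semirings
-/

set_option autoImplicit false

namespace Pool.Agent.V11330.CA

variable {R : Type*} [CommSemiring R]

/-- the natural order of an idempotent semiring -/
def Le (a b : R) : Prop := a + b = b

theorem Le.refl (h : ∀ a : R, a + a = a) (a : R) : Le a a := h a

theorem Le.trans {a b c : R} (h1 : Le a b) (h2 : Le b c) : Le a c := by
  unfold Le at *
  rw [← h2, ← add_assoc, h1]

theorem Le.antisymm {a b : R} (h1 : Le a b) (h2 : Le b a) : a = b := by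
  unfold Le at *
  rw [← h1, add_comm, h2]

theorem Le.add {a b c d : R} (h1 : Le a c) (h2 : Le b d) : Le (a + b) (c + d) := by
  unfold Le at *
  rw [add_add_add_comm, h1, h2]

theorem Le.sup (h : ∀ a : R, a + a = a) {a b c : R} (h1 : Le a c) (h2 : Le b c) :
    Le (a + b) c := by
  have := Le.add h1 h2
  rwa [h] at this

theorem Le.mul_left {a b : R} (c : R) (h1 : Le a b) : Le (c * a) (c * b) := by
  unfold Le at *
  rw [← mul_add, h1]

theorem Le.mul {a b c d : R} (h1 : Le a b) (h2 : Le c d) : Le (a * c) (b * d) := by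
  refine (Le.mul_left a h2).trans ?_
  rw [mul_comm a, mul_comm b]
  exact Le.mul_left d h1

theorem Le.left (h : ∀ a : R, a + a = a) (a b : R) : Le a (a + b) := by
  unfold Le
  rw [← add_assoc, h]

theorem Le.right (h : ∀ a : R, a + a = a) (a b : R) : Le b (a + b) := by
  rw [add_comm]
  exact Le.left h b a

theorem Le.pow (h : ∀ a : R, a + a = a) {a b : R} (h1 : Le a b) (n : ℕ) : Le (a ^ n) (b ^ n) := by
  induction n with
  | zero => rw [pow_zero, pow_zero]; exact h 1
  | succ n ih => rw [pow_succ, pow_succ]; exact ih.mul h1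

theorem pow_expand (h : ∀ a : R, a + a = a) (a y : R) (n : ℕ) :
    Le ((a + y) ^ (n + 2)) (a ^ 2 * (a + y) ^ n + a * y ^ (n + 1) + y ^ (n + 2)) := by
  induction n with
  | zero =>
    have h1 : (a + y) ^ (0 + 2) = a ^ 2 + (a * y + a * y) + y ^ 2 := by ring
    rw [h1, h]
    have h2 : a ^ 2 * (a + y) ^ 0 + a * y ^ (0 + 1) + y ^ (0 + 2) = a ^ 2 + a * y + y ^ 2 := by ring
    rw [h2]
    exact h _
  | succ n ih =>
    have h1 : (a + y) ^ (n + 1 + 2) = (a + y) * (a + y) ^ (n + 2) := by ring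
    rw [h1]
    refine (Le.mul_left (a + y) ih).trans ?_
    have h2 : (a + y) * (a ^ 2 * (a + y) ^ n + a * y ^ (n + 1) + y ^ (n + 2)) =
        (a ^ 2 * (a + y) ^ (n + 1) + a ^ 2 * y ^ (n + 1)) + (a * y ^ (n + 2) + a * y ^ (n + 2)) +
          y ^ (n + 3) := by ring
    rw [h2, h (a * y ^ (n + 2))]
    refine Le.add (Le.add ?_ ?_) ?_
    · refine Le.sup h (Le.refl h _) ?_
      exact Le.mul_left _ (Le.pow h (Le.right h a y) _)
    · exact Le.refl h _
    · exact Le.refl h _

theorem pow_sum_sq (h : ∀ a : R, a + a = a) {ι : Type*} (s : Finset ι) (t : ι → R) :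
    ∃ m : ℕ, (∑ i ∈ s, t i) ^ m * ∑ i ∈ s, t i ^ 2 = (∑ i ∈ s, t i) ^ (m + 2) := by
  classical
  have hle : ∀ s : Finset ι, Le (∑ i ∈ s, t i ^ 2) ((∑ i ∈ s, t i) ^ 2) := by
    intro s
    induction s using Finset.induction_on with
    | empty => unfold Le; simp
    | insert j s hj ih =>
      rw [Finset.sum_insert hj, Finset.sum_insert hj]
      refine Le.sup h (Le.pow h (Le.left h _ _) 2) (ih.trans (Le.pow h (Le.right h _ _) 2))
  induction s using Finset.induction_on with
  | empty => exact ⟨0, by simp⟩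
  | insert j s hj ih =>
    obtain ⟨m, hm⟩ := ih
    refine ⟨m + 1, ?_⟩
    have hle' := hle (insert j s)
    rw [Finset.sum_insert hj, Finset.sum_insert hj] at hle' ⊢
    set y := ∑ i ∈ s, t i with hy
    set q := ∑ i ∈ s, t i ^ 2 with hq
    apply Le.antisymm
    · rw [pow_add (t j + y) (m + 1) 2]
      exact Le.mul_left _ hle'
    · refine (pow_expand h (t j) y (m + 1)).trans ?_
      have h1 : y ^ (m + 1 + 2) = y ^ (m + 1) * q := by
        rw [pow_succ y m, mul_right_comm, hm]; ring
      have h2 : t j * y ^ (m + 1 + 1) = t j * y ^ m * q := by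
        rw [mul_assoc, hm]
      rw [h1, h2, mul_add]
      refine Le.sup h (Le.sup h ?_ ?_) ?_
      · rw [mul_comm (t j ^ 2)]
        exact Le.left h _ _
      · refine Le.trans ?_ (Le.right h _ _)
        refine Le.mul ?_ (Le.refl h _)
        rw [pow_succ, mul_comm (t j)]
        exact Le.mul (Le.pow h (Le.right h _ _) _) (Le.left h _ _)
      · refine Le.trans ?_ (Le.right h _ _)
        exact Le.mul (Le.pow h (Le.right h _ _) _) (Le.refl h _)

/-- An element which can be cancelled. -/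
def Canc (x : R) : Prop := ∀ g h : R, x * g = x * h → g = h

theorem Canc.pow {x : R} (hx : Canc x) (n : ℕ) : Canc (x ^ n) := by
  induction n with
  | zero => intro g h hgh; rwa [pow_zero, one_mul, one_mul] at hgh
  | succ n ih =>
    intro g h hgh
    rw [pow_succ, mul_assoc, mul_assoc] at hgh
    exact hx _ _ (ih _ _ hgh)

theorem Canc.sq_sum (h : ∀ a : R, a + a = a) {ι : Type*} (s : Finset ι) (t : ι → R)
    (hx : Canc (∑ i ∈ s, t i)) : (∑ i ∈ s, t i) ^ 2 = ∑ i ∈ s, t i ^ 2 := by
  obtain ⟨m, hm⟩ := pow_sum_sq h s t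
  rw [pow_add] at hm
  exact (hx.pow m _ _ hm).symm

theorem Canc.pow_sum (h : ∀ a : R, a + a = a) {ι : Type*} (s : Finset ι) (t : ι → R)
    (hx : Canc (∑ i ∈ s, t i)) (j : ℕ) :
    (∑ i ∈ s, t i) ^ 2 ^ j = ∑ i ∈ s, t i ^ 2 ^ j := by
  induction j with
  | zero => simp
  | succ j ih =>
    have h1 := hx.pow (2 ^ j)
    rw [ih] at h1
    have h2 := Canc.sq_sum h s _ h1
    rw [pow_succ, pow_mul, ih, h2]
    exact Finset.sum_congr rfl fun i _ => (pow_mul _ _ _).symm

end Pool.Agent.V11330.CA
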