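import Mathlib
import Pool.Agent.V11330.CA.Idem

/-!
# Tropicalised quotients
-/

set_option autoImplicit false

namespace Pool.Agent.V11330.CA

open AddMonoidAlgebra

/-- The elements of `Γ`, with the addition `max` and the multiplication of `Γ`. -/
@[ext]
structure MaxTimes (Γ : Type) where
  /-- the element of `Γ` -/
  val : Γ

section

variable {Γ : Type} [LinearOrderedCommGroupWithZero Γ]

instance : Add (MaxTimes Γ) := ⟨fun a b => ⟨max a.val b.val⟩⟩
instance : Mul (MaxTimes Γ) := ⟨fun a b => ⟨a.val * b.val⟩⟩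
instance : Zero (MaxTimes Γ) := ⟨⟨0⟩⟩
instance : One (MaxTimes Γ) := ⟨⟨1⟩⟩

theorem val_add (a b : MaxTimes Γ) : (a + b).val = max a.val b.val := rfl
theorem val_mul (a b : MaxTimes Γ) : (a * b).val = a.val * b.val := rfl
theorem val_zero : (0 : MaxTimes Γ).val = 0 := rfl
theorem val_one : (1 : MaxTimes Γ).val = 1 := rfl

instance : CommSemiring (MaxTimes Γ) where
  add_assoc a b c := MaxTimes.ext (max_assoc _ _ _)
  zero_add a := MaxTimes.ext (max_eq_right zero_le)
  add_zero a := MaxTimes.ext (max_eq_left zero_le)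
  add_comm a b := MaxTimes.ext (max_comm _ _)
  left_distrib a b c := by
    apply MaxTimes.ext
    simp only [val_add, val_mul]
    rcases le_total b.val c.val with h | h
    · rw [max_eq_right h, max_eq_right (mul_le_mul_right h _)]
    · rw [max_eq_left h, max_eq_left (mul_le_mul_right h _)]
  right_distrib a b c := by
    apply MaxTimes.ext
    simp only [val_add, val_mul]
    rcases le_total a.val b.val with h | h
    · rw [max_eq_right h, max_eq_right (mul_le_mul_left h _)]
    · rw [max_eq_left h, max_eq_left (mul_le_mul_left h _)]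
  zero_mul a := MaxTimes.ext (zero_mul _)
  mul_zero a := MaxTimes.ext (mul_zero _)
  mul_assoc a b c := MaxTimes.ext (mul_assoc _ _ _)
  one_mul a := MaxTimes.ext (one_mul _)
  mul_one a := MaxTimes.ext (mul_one _)
  mul_comm a b := MaxTimes.ext (mul_comm _ _)
  nsmul := nsmulRec

theorem idem' (a : MaxTimes Γ) : a + a = a := MaxTimes.ext (max_self _)

theorem val_eq_zero {a : MaxTimes Γ} : a.val = 0 ↔ a = 0 :=
  ⟨fun h => MaxTimes.ext h, fun h => by rw [h, val_zero]⟩

theorem add_eq_zero' {a b : MaxTimes Γ} : a + b = 0 ↔ a = 0 ∧ b = 0 := by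
  constructor
  · intro h
    have h1 : max a.val b.val = 0 := by rw [← val_add, h, val_zero]
    have h2 : a.val ≤ 0 := (le_max_left _ _).trans h1.le
    have h3 : b.val ≤ 0 := (le_max_right _ _).trans h1.le
    exact ⟨val_eq_zero.1 (le_antisymm h2 zero_le), val_eq_zero.1 (le_antisymm h3 zero_le)⟩
  · rintro ⟨rfl, rfl⟩
    exact add_zero _

theorem mul_eq_zero' {a b : MaxTimes Γ} : a * b = 0 ↔ a = 0 ∨ b = 0 := by
  rw [← val_eq_zero, ← val_eq_zero, ← val_eq_zero, val_mul, mul_eq_zero]

theorem one_ne_zero' : (1 : MaxTimes Γ) ≠ 0 := by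
  rw [Ne, ← val_eq_zero, val_one]
  exact one_ne_zero

end

section

variable {K : Type} [Field K] {Γ : Type} [LinearOrderedCommGroupWithZero Γ] (v : Valuation K Γ)
variable {M : Type} [AddCommMonoid M]

/-- `trop f` -/
noncomputable def trop (f : AddMonoidAlgebra K M) : AddMonoidAlgebra (MaxTimes Γ) M :=
  ofCoeff (f.coeff.mapRange (fun c => (⟨v c⟩ : MaxTimes Γ)) (MaxTimes.ext (map_zero v)))

omit [AddCommMonoid M] in
theorem trop_apply (f : AddMonoidAlgebra K M) (u : M) :
    (trop v f).coeff u = ⟨v (f.coeff u)⟩ := rfl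

omit [AddCommMonoid M] in
theorem trop_support (f : AddMonoidAlgebra K M) :
    (trop v f).coeff.support = f.coeff.support := by
  ext u
  rw [Finsupp.mem_support_iff, Finsupp.mem_support_iff, trop_apply, Ne, ← val_eq_zero,
    Valuation.zero_iff]

/-- the bend relations of `trop I` -/
def BendRel (I : Ideal (AddMonoidAlgebra K M)) (a b : AddMonoidAlgebra (MaxTimes Γ) M) : Prop :=
  ∃ f ∈ I, ∃ u ∈ (trop v f).coeff.support, a = trop v f ∧ b = (trop v f).erase u

/-- the quotient -/
abbrev Quo (I : Ideal (AddMonoidAlgebra K M)) : Type := (ringConGen (BendRel v I)).Quotient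

/-- the class of a tropical polynomial -/
noncomputable def cls (I : Ideal (AddMonoidAlgebra K M)) :
    AddMonoidAlgebra (MaxTimes Γ) M →+* Quo v I := (ringConGen (BendRel v I)).mk'

theorem cls_surjective (I : Ideal (AddMonoidAlgebra K M)) : Function.Surjective (cls v I) :=
  RingCon.mk'_surjective _

theorem cls_bend {I : Ideal (AddMonoidAlgebra K M)} {f : AddMonoidAlgebra K M} (hf : f ∈ I) {u : M}
    (hu : u ∈ f.coeff.support) : cls v I (trop v f) = cls v I ((trop v f).erase u) := by
  apply (RingCon.eq _).2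
  apply RingConGen.Rel.of
  exact ⟨f, hf, u, by rw [trop_support]; exact hu, rfl, rfl⟩

theorem idemSM (f : AddMonoidAlgebra (MaxTimes Γ) M) : f + f = f := by
  apply AddMonoidAlgebra.ext
  apply Finsupp.ext
  intro u
  exact idem' (f.coeff u)

theorem idemQ (I : Ideal (AddMonoidAlgebra K M)) (x : Quo v I) : x + x = x := by
  obtain ⟨f, rfl⟩ := cls_surjective v I x
  rw [← map_add, idemSM]

/-- the class of the exponent `u` -/
noncomputable def chi (I : Ideal (AddMonoidAlgebra K M)) (u : M) : AddMonoidAlgebra K M ⧸ I :=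
  Ideal.Quotient.mk I (single u 1)

theorem chi_add (I : Ideal (AddMonoidAlgebra K M)) (u w : M) : chi I (u + w) = chi I u * chi I w := by
  unfold chi
  rw [← map_mul, single_mul_single, mul_one]

open Classical in
/-- coefficients -/
noncomputable def cf (Γ : Type) [LinearOrderedCommGroupWithZero Γ] (K : Type) [Field K] (Q : Type)
    [CommRing Q] [Algebra K Q] : MaxTimes Γ →+* Submodule K Q where
  toFun c := if c = 0 then ⊥ else 1
  map_one' := by rw [if_neg one_ne_zero']
  map_zero' := if_pos rfl
  map_add' a b := by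
    by_cases ha : a = 0
    · rw [ha, zero_add, if_pos rfl]
      exact (zero_add _).symm
    · have hab : a + b ≠ 0 := fun h => ha (add_eq_zero'.1 h).1
      rw [if_neg hab, if_neg ha]
      split_ifs
      · exact (add_zero _).symm
      · exact (add_idem _).symm
  map_mul' a b := by
    by_cases ha : a = 0
    · rw [ha, zero_mul, if_pos rfl]
      exact (zero_mul _).symm
    by_cases hb : b = 0
    · rw [hb, mul_zero, if_pos rfl]
      exact (mul_zero _).symm
    have hab : a * b ≠ 0 := fun h => (mul_eq_zero'.1 h).elim ha hb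
    rw [if_neg hab, if_neg ha, if_neg hb, one_mul]

/-- exponents -/
noncomputable def ef (I : Ideal (AddMonoidAlgebra K M)) :
    Multiplicative M →* Submodule K (AddMonoidAlgebra K M ⧸ I) where
  toFun u := Submodule.span K {chi I u.toAdd}
  map_one' := by
    rw [Submodule.one_eq_span]
    rfl
  map_mul' u w := by
    rw [Submodule.span_mul_span, Set.singleton_mul_singleton, toAdd_mul, chi_add]

/-- the span of the monomials of a tropical polynomial -/
noncomputable def spanHom (Γ : Type) [LinearOrderedCommGroupWithZero Γ]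
    (I : Ideal (AddMonoidAlgebra K M)) :
    AddMonoidAlgebra (MaxTimes Γ) M →+* Submodule K (AddMonoidAlgebra K M ⧸ I) :=
  AddMonoidAlgebra.liftNCRingHom (cf Γ K _) (ef I) fun x y => by
    rw [commute_iff_eq]; exact mul_comm (cf Γ K _ x) (ef I y)

theorem spanHom_single (I : Ideal (AddMonoidAlgebra K M)) (u : M) {a : MaxTimes Γ} (ha : a ≠ 0) :
    spanHom Γ I (single u a) = Submodule.span K {chi I u} := by
  have h1 : spanHom Γ I (single u a) =
      cf Γ K (AddMonoidAlgebra K M ⧸ I) a * ef I (Multiplicative.ofAdd u) :=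
    AddMonoidAlgebra.liftNC_single _ _ _ _
  rw [h1]
  have h2 : cf Γ K (AddMonoidAlgebra K M ⧸ I) a = 1 := if_neg ha
  rw [h2, one_mul]
  rfl

theorem spanHom_eq (I : Ideal (AddMonoidAlgebra K M)) (f : AddMonoidAlgebra (MaxTimes Γ) M) :
    spanHom Γ I f = Submodule.span K (chi I '' (f.coeff.support : Set M)) := by
  classical
  have h1 : f = ∑ u ∈ f.coeff.support, single u (f.coeff u) := by
    apply AddMonoidAlgebra.ext
    rw [AddMonoidAlgebra.coeff_sum]
    exact (Finsupp.sum_single f.coeff).symm
  have h2 : ∀ s : Finset M, (∀ u ∈ s, f.coeff u ≠ 0) →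
      spanHom Γ I (∑ u ∈ s, single u (f.coeff u)) = Submodule.span K (chi I '' (s : Set M)) := by
    intro s
    induction s using Finset.induction_on with
    | empty => intro _; simp
    | insert w s hw ih =>
      intro hs
      rw [Finset.sum_insert hw, map_add, ih fun u hu => hs u (Finset.mem_insert_of_mem hu),
        spanHom_single I w (hs w (Finset.mem_insert_self _ _)), Finset.coe_insert,
        Set.image_insert_eq, Submodule.span_insert]
      rfl
  conv_lhs => rw [h1]
  exact h2 _ fun u hu => Finsupp.mem_support_iff.1 hu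

/-- a polynomial of `I` gives a linear relation -/
theorem chi_sum {I : Ideal (AddMonoidAlgebra K M)} {f : AddMonoidAlgebra K M} (hf : f ∈ I) :
    ∑ u ∈ f.coeff.support, f.coeff u • chi I u = 0 := by
  have h1 : f = ∑ u ∈ f.coeff.support, single u (f.coeff u) := by
    apply AddMonoidAlgebra.ext
    rw [AddMonoidAlgebra.coeff_sum]
    exact (Finsupp.sum_single f.coeff).symm
  have h2 : Ideal.Quotient.mk I f = 0 := Ideal.Quotient.eq_zero_iff_mem.2 hf
  rw [← h2]
  conv_rhs => rw [h1]
  rw [map_sum]
  refine Finset.sum_congr rfl fun u _ => ?_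
  have h3 : single u (f.coeff u) = f.coeff u • (single u 1 : AddMonoidAlgebra K M) := by
    rw [AddMonoidAlgebra.smul_single, smul_eq_mul, mul_one]
  rw [h3]
  rfl

theorem spanHom_bend {I : Ideal (AddMonoidAlgebra K M)} {a b : AddMonoidAlgebra (MaxTimes Γ) M}
    (h : BendRel v I a b) : spanHom Γ I a = spanHom Γ I b := by
  classical
  obtain ⟨f, hf, u, hu, rfl, rfl⟩ := h
  rw [trop_support] at hu
  rw [spanHom_eq, spanHom_eq, trop_support]
  have h1 : ((trop v f).erase u).coeff.support = f.coeff.support.erase u := by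
    rw [AddMonoidAlgebra.coeff_erase, Finsupp.support_erase, trop_support]
  rw [h1]
  apply le_antisymm
  · rw [Submodule.span_le]
    rintro _ ⟨w, hw, rfl⟩
    by_cases hwu : w = u
    · subst hwu
      have h2 := chi_sum hf
      rw [← Finset.add_sum_erase _ _ hu] at h2
      have h3 : chi I w = -(f.coeff w)⁻¹ • ∑ x ∈ f.coeff.support.erase w, f.coeff x • chi I x := by
        have h4 : f.coeff w ≠ 0 := Finsupp.mem_support_iff.1 hu
        rw [eq_neg_of_add_eq_zero_right h2, smul_neg, neg_smul, neg_neg, smul_smul,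
          inv_mul_cancel₀ h4, one_smul]
      rw [SetLike.mem_coe, h3]
      refine Submodule.smul_mem _ _ (Submodule.sum_mem _ fun x hx => Submodule.smul_mem _ _ ?_)
      exact Submodule.subset_span ⟨x, hx, rfl⟩
    · exact Submodule.subset_span ⟨w, Finset.mem_coe.2 (Finset.mem_erase.2 ⟨hwu, hw⟩), rfl⟩
  · refine Submodule.span_mono (Set.image_mono ?_)
    intro w hw
    exact Finset.mem_coe.2 (Finset.mem_of_mem_erase (Finset.mem_coe.1 hw))

/-- the span of the monomials, on the quotient -/
noncomputable def spanQ (I : Ideal (AddMonoidAlgebra K M)) :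
    Quo v I →+* Submodule K (AddMonoidAlgebra K M ⧸ I) :=
  RingCon.lift (ringConGen (BendRel v I)) (spanHom Γ I) (by
    rw [RingCon.ringConGen_le]
    intro a b h
    exact spanHom_bend v h)

theorem spanQ_cls (I : Ideal (AddMonoidAlgebra K M)) (f : AddMonoidAlgebra (MaxTimes Γ) M) :
    spanQ v I (cls v I f) = spanHom Γ I f := rfl

end

end Pool.Agent.V11330.CA
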