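import Mathlib
import Pool.Agent.V11330.CA.Trop

/-!
# Cancellative elements of tropicalised quotients
-/

set_option autoImplicit false

namespace Pool.Agent.V11330.CA

open AddMonoidAlgebra

section

variable {K : Type} [Field K] {Γ : Type} [LinearOrderedCommGroupWithZero Γ] (v : Valuation K Γ)
variable {M : Type} [AddCommMonoid M]

omit [AddCommMonoid M] in
theorem exists_le (s : Finset M) (p : M → Γ) (hp : ∀ w ∈ s, p w ≠ 0) :
    ∃ c : Γ, c ≠ 0 ∧ ∀ w ∈ s, c ≤ p w := by
  classical
  induction s using Finset.induction_on with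
  | empty => exact ⟨1, one_ne_zero, by simp⟩
  | insert a s _ ih =>
    obtain ⟨c, hc, h⟩ := ih fun w hw => hp w (Finset.mem_insert_of_mem hw)
    refine ⟨min c (p a), ?_, fun w hw => ?_⟩
    · rcases min_choice c (p a) with h1 | h1 <;> rw [h1]
      · exact hc
      · exact hp a (Finset.mem_insert_self _ _)
    · rw [Finset.mem_insert] at hw
      rcases hw with rfl | hw
      · exact min_le_right _ _
      · exact (min_le_left _ _).trans (h w hw)

omit [AddCommMonoid M] in
theorem sum_single' {S : Type} [Semiring S] (f : AddMonoidAlgebra S M) :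
    ∑ u ∈ f.coeff.support, single u (f.coeff u) = f := by
  apply AddMonoidAlgebra.ext
  rw [AddMonoidAlgebra.coeff_sum]
  exact Finsupp.sum_single f.coeff

theorem add_absorb {F G : AddMonoidAlgebra (MaxTimes Γ) M}
    (h : ∀ u, (G.coeff u).val ≤ (F.coeff u).val) : F + G = F := by
  apply AddMonoidAlgebra.ext
  apply Finsupp.ext
  intro u
  exact MaxTimes.ext (max_eq_left (h u))

theorem single_zero_mul_coeff (c : MaxTimes Γ) (G : AddMonoidAlgebra (MaxTimes Γ) M) (u : M) :
    (single 0 c * G).coeff u = c * G.coeff u := by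
  classical
  have h1 : single (0 : M) c * G = ∑ w ∈ G.coeff.support, single w (c * G.coeff w) := by
    conv_lhs => rw [← sum_single' G]
    rw [Finset.mul_sum]
    refine Finset.sum_congr rfl fun w _ => ?_
    rw [single_mul_single, zero_add]
  rw [h1, AddMonoidAlgebra.coeff_sum, Finsupp.finsetSum_apply]
  by_cases hu : u ∈ G.coeff.support
  · rw [Finset.sum_eq_single_of_mem u hu]
    · rw [AddMonoidAlgebra.coeff_single, Finsupp.single_eq_same]
    · intro w _ hw
      rw [AddMonoidAlgebra.coeff_single, Finsupp.single_eq_of_ne hw.symm]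
  · rw [Finsupp.notMem_support_iff.1 hu, mul_zero]
    refine Finset.sum_eq_zero fun w hw => ?_
    rw [AddMonoidAlgebra.coeff_single, Finsupp.single_eq_of_ne]
    rintro rfl
    exact hu hw

theorem absorb {I : Ideal (AddMonoidAlgebra K M)} {F : AddMonoidAlgebra (MaxTimes Γ) M} {y : M}
    (h : chi I y ∈ Submodule.span K (chi I '' (F.coeff.support : Set M))) :
    ∃ c₀ : Γ, c₀ ≠ 0 ∧ ∀ c : Γ, c ≤ c₀ → cls v I (F + single y ⟨c⟩) = cls v I F := by
  classical
  by_cases hy : y ∈ F.coeff.support
  · refine ⟨(F.coeff y).val, ?_, fun c hc => ?_⟩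
    · rw [Ne, val_eq_zero]
      exact Finsupp.mem_support_iff.1 hy
    · rw [add_absorb]
      intro u
      by_cases hu : u = y
      · subst hu
        rw [AddMonoidAlgebra.coeff_single, Finsupp.single_eq_same]
        exact hc
      · rw [AddMonoidAlgebra.coeff_single, Finsupp.single_eq_of_ne hu]
        exact zero_le
  · obtain ⟨a, ha⟩ : ∃ a : M → K, ∑ w ∈ F.coeff.support, a w • chi I w = chi I y := by
      rw [Submodule.mem_span_image_finset_iff_exists_fun] at h
      obtain ⟨a, ha⟩ := h
      refine ⟨fun w => if hw : w ∈ F.coeff.support then a ⟨w, hw⟩ else 0, ?_⟩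
      rw [← ha, ← Finset.sum_coe_sort]
      exact Finset.sum_congr rfl fun w _ => by dsimp only; rw [dif_pos w.2]
    set f : AddMonoidAlgebra K M := single y 1 - ∑ w ∈ F.coeff.support, single w (a w) with hf
    have hfI : f ∈ I := by
      rw [← Ideal.Quotient.eq_zero_iff_mem, hf, map_sub, map_sum, sub_eq_zero]
      change chi I y = _
      rw [← ha]
      refine Finset.sum_congr rfl fun w _ => ?_
      have h3 : single w (a w) = a w • (single w 1 : AddMonoidAlgebra K M) := by
        rw [AddMonoidAlgebra.smul_single, smul_eq_mul, mul_one]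
      rw [h3]
      rfl
    have hfy : f.coeff y = 1 := by
      rw [hf, AddMonoidAlgebra.coeff_sub, AddMonoidAlgebra.coeff_sum, Finsupp.sub_apply,
        Finsupp.finsetSum_apply, AddMonoidAlgebra.coeff_single, Finsupp.single_eq_same,
        Finset.sum_eq_zero, sub_zero]
      intro w hw
      rw [AddMonoidAlgebra.coeff_single, Finsupp.single_eq_of_ne]
      rintro rfl
      exact hy hw
    have hfy' : y ∈ f.coeff.support := by
      rw [Finsupp.mem_support_iff, hfy]
      exact one_ne_zero
    have hb := cls_bend v hfI hfy'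
    set G := (trop v f).erase y with hG
    have hdec : trop v f = single y 1 + G := by
      apply AddMonoidAlgebra.ext
      have h1 : (1 : MaxTimes Γ) = (trop v f).coeff y := by
        rw [trop_apply, hfy, map_one]; rfl
      rw [h1]
      exact (Finsupp.single_add_erase y (trop v f).coeff).symm
    have hGF : ∀ w, w ∉ F.coeff.support → G.coeff w = 0 := by
      intro w hw
      by_cases hwy : w = y
      · rw [hG, hwy, AddMonoidAlgebra.coeff_erase, Finsupp.erase_same]
      · rw [hG, AddMonoidAlgebra.coeff_erase, Finsupp.erase_ne hwy, trop_apply]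
        have h2 : f.coeff w = 0 := by
          rw [hf, AddMonoidAlgebra.coeff_sub, AddMonoidAlgebra.coeff_sum, Finsupp.sub_apply,
            Finsupp.finsetSum_apply, AddMonoidAlgebra.coeff_single, Finsupp.single_eq_of_ne hwy,
            Finset.sum_eq_zero, sub_zero]
          intro x hx
          rw [AddMonoidAlgebra.coeff_single, Finsupp.single_eq_of_ne]
          rintro rfl
          exact hw hx
        rw [h2, map_zero]; rfl
    obtain ⟨c₀, hc₀, hle⟩ := exists_le (Γ := Γ) F.coeff.support
      (fun w => if G.coeff w = 0 then 1 else (F.coeff w).val / (G.coeff w).val) (by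
        intro w hw
        split_ifs with h1
        · exact one_ne_zero
        · refine div_ne_zero ?_ ?_
          · rw [Ne, val_eq_zero]; exact Finsupp.mem_support_iff.1 hw
          · rw [Ne, val_eq_zero]; exact h1)
    refine ⟨c₀, hc₀, fun c hc => ?_⟩
    have hcG : F + single 0 ⟨c⟩ * G = F := by
      apply add_absorb
      intro u
      rw [single_zero_mul_coeff, val_mul]
      by_cases hu : G.coeff u = 0
      · rw [hu, val_zero, mul_zero]
        exact zero_le
      · have huF : u ∈ F.coeff.support := by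
          by_contra h'
          exact hu (hGF u h')
        have h1 := hle u huF
        simp only [if_neg hu] at h1
        have h2 : (G.coeff u).val ≠ 0 := by rw [Ne, val_eq_zero]; exact hu
        calc c * (G.coeff u).val ≤ (F.coeff u).val / (G.coeff u).val * (G.coeff u).val :=
              mul_le_mul_left (hc.trans h1) _
          _ = (F.coeff u).val := div_mul_cancel₀ _ h2
    have h1 : cls v I (single 0 ⟨c⟩ * G) = cls v I (single y ⟨c⟩ + single 0 ⟨c⟩ * G) := by
      have h2 : single y ⟨c⟩ + single 0 ⟨c⟩ * G = single 0 ⟨c⟩ * trop v f := by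
        rw [hdec, mul_add, single_mul_single, zero_add, mul_one]
      rw [h2, map_mul, map_mul, hb]
    calc cls v I (F + single y ⟨c⟩) = cls v I (F + single 0 ⟨c⟩ * G + single y ⟨c⟩) := by rw [hcG]
      _ = cls v I F + cls v I (single y ⟨c⟩ + single 0 ⟨c⟩ * G) := by
          rw [← map_add]; congr 1; abel
      _ = cls v I F + cls v I (single 0 ⟨c⟩ * G) := by rw [h1]
      _ = cls v I (F + single 0 ⟨c⟩ * G) := by rw [map_add]
      _ = cls v I F := by rw [hcG]

theorem spanHom_finite (I : Ideal (AddMonoidAlgebra K M)) (f : AddMonoidAlgebra (MaxTimes Γ) M) :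
    Module.Finite K (spanHom Γ I f) := by
  rw [spanHom_eq]
  exact Module.Finite.span_of_finite K (f.coeff.support.finite_toSet.image _)

theorem finrank_singleton_mul {Q : Type} [CommRing Q] [IsDomain Q] [Algebra K Q] {a : Q} (ha : a ≠ 0)
    (N : Submodule K Q) : Module.finrank K (Submodule.span K {a} * N : Submodule K Q) =
      Module.finrank K N := by
  have h1 : Submodule.span K {a} * N = N.map (LinearMap.mulLeft K a) := by
    ext x
    rw [Submodule.mem_span_singleton_mul, Submodule.mem_map]
    rfl
  have hinj : Function.Injective (LinearMap.mulLeft K a) := by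
    intro x y hxy
    exact mul_left_cancel₀ ha hxy
  rw [h1]
  exact (LinearEquiv.finrank_eq (Submodule.equivMapOfInjective _ hinj N)).symm

/-- Every cancellative element is the class of a term. -/
theorem canc_term {I : Ideal (AddMonoidAlgebra K M)} (hI : I.IsPrime)
    (hmon : ∀ (u : M) (c : K), c ≠ 0 → single u c ∉ I)
    (hbin : ∀ u w : M, u ≠ w → ∀ c d : K, c ≠ 0 → d ≠ 0 → single u c + single w d ∉ I)
    {x : Quo v I} (hx : Canc x) :
    ∃ (u : M) (a : MaxTimes Γ), a ≠ 0 ∧ x = cls v I (single u a) := by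
  classical
  have : IsDomain (AddMonoidAlgebra K M ⧸ I) := Ideal.Quotient.isDomain I
  obtain ⟨F, rfl⟩ := cls_surjective v I x
  set s := F.coeff.support with hs
  have hchi : ∀ u, chi I u ≠ 0 := by
    intro u h
    exact hmon u 1 one_ne_zero (Ideal.Quotient.eq_zero_iff_mem.1 h)
  -- nonempty support
  rcases s.eq_empty_or_nonempty with hs0 | ⟨u₁, hu₁⟩
  · exfalso
    have hF : F = 0 := by
      apply AddMonoidAlgebra.ext
      exact Finsupp.support_eq_empty.1 hs0
    have h1 := hx 1 0 (by rw [hF, map_zero, zero_mul, zero_mul])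
    have h2 := congrArg (spanQ v I) h1
    rw [map_one, map_zero] at h2
    have h3 : (1 : AddMonoidAlgebra K M ⧸ I) ∈ (1 : Submodule K (AddMonoidAlgebra K M ⧸ I)) :=
      Submodule.one_le.1 le_rfl
    rw [h2] at h3
    exact one_ne_zero ((Submodule.mem_bot K).1 h3)
  have ha₁ : F.coeff u₁ ≠ 0 := Finsupp.mem_support_iff.1 hu₁
  by_cases hall : ∀ u ∈ s, u = u₁
  · refine ⟨u₁, F.coeff u₁, ha₁, ?_⟩
    have hsing : s = {u₁} := by
      ext u
      rw [Finset.mem_singleton]
      exact ⟨hall u, fun h => h ▸ hu₁⟩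
    conv_lhs => rw [← sum_single' F, ← hs, hsing, Finset.sum_singleton]
  exfalso
  push Not at hall
  obtain ⟨u₂, hu₂, hne⟩ := hall
  set V := spanHom Γ I F with hV
  have hVk : ∀ k : ℕ, V ^ k = spanHom Γ I (F ^ k) := fun k => by rw [map_pow]
  have hpow : ∀ k : ℕ, V ^ (k + 1) = V ^ k * V := fun k => by
    rw [hVk, hVk, pow_succ F, map_mul]
  have hpow' : ∀ k : ℕ, V ^ (k + 1) = V * V ^ k := fun k => by
    rw [hVk, hVk, pow_succ' F, map_mul]
  have hfin : ∀ k : ℕ, Module.Finite K (V ^ k : Submodule K (AddMonoidAlgebra K M ⧸ I)) := by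
    intro k
    rw [hVk]
    exact spanHom_finite I _
  -- bounded dimensions
  have hb : ∀ j : ℕ, Module.finrank K (V ^ 2 ^ j : Submodule K (AddMonoidAlgebra K M ⧸ I)) ≤ s.card := by
    intro j
    have h1 : cls v I F = ∑ u ∈ s, cls v I (single u (F.coeff u)) := by
      rw [← map_sum, hs, sum_single']
    have h2 := Canc.pow_sum (idemQ v I) s (fun u => cls v I (single u (F.coeff u)))
      (by rw [← h1]; exact hx) j
    have h3 := congrArg (spanQ v I) h2
    rw [← h1, map_pow, spanQ_cls, map_sum] at h3
    have h4 : ∀ u ∈ s, spanQ v I (cls v I (single u (F.coeff u)) ^ 2 ^ j) =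
        Submodule.span K {chi I u ^ 2 ^ j} := by
      intro u hu
      rw [map_pow, spanQ_cls, spanHom_single I u (Finsupp.mem_support_iff.1 hu),
        Submodule.span_pow, Set.singleton_pow]
    rw [Finset.sum_congr rfl h4] at h3
    have h5 : V ^ 2 ^ j ≤ Submodule.span K ((s.image fun u => chi I u ^ 2 ^ j :
        Finset (AddMonoidAlgebra K M ⧸ I)) : Set (AddMonoidAlgebra K M ⧸ I)) := by
      rw [hV, h3]
      refine Finset.sum_induction _ (fun N => N ≤ _) (fun a b ha hb => ?_) bot_le ?_
      · exact sup_le ha hb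
      · intro u hu
        rw [Submodule.span_le, Set.singleton_subset_iff]
        exact Submodule.subset_span (Finset.mem_coe.2 (Finset.mem_image_of_mem _ hu))
    refine (Submodule.finrank_mono h5).trans ?_
    exact (finrank_span_finset_le_card _).trans Finset.card_image_le
  have hstep : ∀ k : ℕ, Submodule.span K {chi I u₁} * V ^ k ≤ V ^ (k + 1) := by
    intro k
    rw [hpow', Submodule.mul_le]
    intro m hm n hn
    refine Submodule.mul_mem_mul ?_ hn
    have h1 : Submodule.span K {chi I u₁} ≤ V := by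
      rw [Submodule.span_le, Set.singleton_subset_iff, hV, spanHom_eq]
      exact Submodule.subset_span ⟨u₁, hu₁, rfl⟩
    exact h1 hm
  have hmono : ∀ k : ℕ, Module.finrank K (V ^ k : Submodule K (AddMonoidAlgebra K M ⧸ I)) ≤
      Module.finrank K (V ^ (k + 1) : Submodule K (AddMonoidAlgebra K M ⧸ I)) := by
    intro k
    have := hfin (k + 1)
    rw [← finrank_singleton_mul (hchi u₁) (V ^ k)]
    exact Submodule.finrank_mono (hstep k)
  have hmono' : Monotone fun k : ℕ =>
      Module.finrank K (V ^ k : Submodule K (AddMonoidAlgebra K M ⧸ I)) :=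
    monotone_nat_of_le_succ hmono
  obtain ⟨k, hk⟩ : ∃ k : ℕ, Module.finrank K (V ^ k : Submodule K (AddMonoidAlgebra K M ⧸ I)) =
      Module.finrank K (V ^ (k + 1) : Submodule K (AddMonoidAlgebra K M ⧸ I)) := by
    by_contra hcon
    push Not at hcon
    have h1 : ∀ k : ℕ, k ≤ Module.finrank K (V ^ k : Submodule K (AddMonoidAlgebra K M ⧸ I)) := by
      intro k
      induction k with
      | zero => exact Nat.zero_le _
      | succ k ih => exact Nat.lt_of_le_of_lt ih (lt_of_le_of_ne (hmono k) (hcon k))
    have h2 := h1 (s.card + 1)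
    have h3 : s.card + 1 ≤ 2 ^ (s.card + 1) := Nat.lt_two_pow_self.le
    have h4 := hmono' h3
    have h5 := hb (s.card + 1)
    simp only at h4
    omega
  have heq : Submodule.span K {chi I u₁} * V ^ k = V ^ (k + 1) := by
    have := hfin (k + 1)
    apply Submodule.eq_of_le_of_finrank_eq (hstep k)
    rw [finrank_singleton_mul (hchi u₁), hk]
  set F' := single u₁ (F.coeff u₁) * F ^ k with hF'
  have hF'V : spanHom Γ I F' = V ^ (k + 1) := by
    rw [hF', map_mul, spanHom_single I u₁ ha₁, map_pow, heq]
  have habs : ∀ w ∈ (F ^ k).coeff.support, ∃ c₀ : Γ, c₀ ≠ 0 ∧ ∀ c : Γ, c ≤ c₀ →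
      cls v I (F' + single (w + u₂) ⟨c⟩) = cls v I F' := by
    intro w hw
    apply absorb
    rw [← spanHom_eq, hF'V, hpow, chi_add]
    refine Submodule.mul_mem_mul ?_ ?_
    · rw [hVk, spanHom_eq]
      exact Submodule.subset_span ⟨w, hw, rfl⟩
    · rw [hV, spanHom_eq]
      exact Submodule.subset_span ⟨u₂, hu₂, rfl⟩
  choose! p hp0 hp using habs
  obtain ⟨c, hc0, hc⟩ := exists_le (Γ := Γ) (F ^ k).coeff.support
    (fun w => p w / ((F ^ k).coeff w).val) (by
      intro w hw
      refine div_ne_zero (hp0 w hw) ?_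
      rw [Ne, val_eq_zero]
      exact Finsupp.mem_support_iff.1 hw)
  have hsum : ∀ T : Finset M, T ⊆ (F ^ k).coeff.support →
      cls v I (F' + ∑ w ∈ T, single (w + u₂) ((F ^ k).coeff w * ⟨c⟩)) = cls v I F' := by
    intro T
    induction T using Finset.induction_on with
    | empty => intro _; rw [Finset.sum_empty, add_zero]
    | insert w T hw ih =>
      intro hT
      have hw' : w ∈ (F ^ k).coeff.support := hT (Finset.mem_insert_self _ _)
      have h1 := ih fun x hx => hT (Finset.mem_insert_of_mem hx)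
      have h2 : cls v I (F' + single (w + u₂) ((F ^ k).coeff w * ⟨c⟩)) = cls v I F' := by
        apply hp w hw'
        have h3 := hc w hw'
        have h4 : ((F ^ k).coeff w).val ≠ 0 := by
          rw [Ne, val_eq_zero]
          exact Finsupp.mem_support_iff.1 hw'
        calc ((F ^ k).coeff w).val * c ≤ ((F ^ k).coeff w).val * (p w / ((F ^ k).coeff w).val) :=
              mul_le_mul_right h3 _
          _ = p w := mul_div_cancel₀ _ h4
      rw [Finset.sum_insert hw]
      calc cls v I (F' + (single (w + u₂) ((F ^ k).coeff w * ⟨c⟩) +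
              ∑ w ∈ T, single (w + u₂) ((F ^ k).coeff w * ⟨c⟩))) =
            cls v I (F' + ∑ w ∈ T, single (w + u₂) ((F ^ k).coeff w * ⟨c⟩)) +
              cls v I (single (w + u₂) ((F ^ k).coeff w * ⟨c⟩)) := by
              rw [← map_add]; congr 1; abel
        _ = cls v I F' + cls v I (single (w + u₂) ((F ^ k).coeff w * ⟨c⟩)) := by rw [h1]
        _ = cls v I F' := by rw [← map_add, h2]
  have hfinal := hsum _ (Finset.Subset.refl _)
  have hmul : ∑ w ∈ (F ^ k).coeff.support, single (w + u₂) ((F ^ k).coeff w * ⟨c⟩) =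
      F ^ k * single u₂ ⟨c⟩ := by
    conv_rhs => rw [← sum_single' (F ^ k)]
    rw [Finset.sum_mul]
    exact Finset.sum_congr rfl fun w _ => (single_mul_single ..).symm
  rw [hmul, hF', mul_comm (single u₁ (F.coeff u₁)), ← mul_add, map_mul, map_mul, map_pow] at hfinal
  have hcan := hx.pow k _ _ hfinal
  have hsp := congrArg (spanQ v I) hcan
  have hc' : (⟨c⟩ : MaxTimes Γ) ≠ 0 := fun h => hc0 (val_eq_zero.2 h)
  rw [map_add, map_add, spanQ_cls, spanQ_cls, spanHom_single I u₁ ha₁, spanHom_single I u₂ hc'] at hsp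
  have hmem : chi I u₂ ∈ Submodule.span K {chi I u₁} := by
    rw [← hsp]
    exact Submodule.mem_sup_right (Submodule.mem_span_singleton_self _)
  obtain ⟨a, ha⟩ := Submodule.mem_span_singleton.1 hmem
  by_cases ha0 : a = 0
  · rw [ha0, zero_smul] at ha
    exact hchi u₂ ha.symm
  · refine hbin u₂ u₁ hne 1 (-a) one_ne_zero (neg_ne_zero.2 ha0) ?_
    rw [← Ideal.Quotient.eq_zero_iff_mem, map_add]
    have h3 : single u₁ (-a) = -(a • (single u₁ 1 : AddMonoidAlgebra K M)) := by
      rw [AddMonoidAlgebra.smul_single, smul_eq_mul, mul_one, AddMonoidAlgebra.single_neg]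
    rw [h3, map_neg]
    change chi I u₂ + -(a • chi I u₁) = 0
    rw [ha, add_neg_cancel]

end

end Pool.Agent.V11330.CA
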